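import Pool.Agent.PRT.StmtsB

/-!
# Squad PRT, row NWT: a zero by the Newton map
-/

set_option autoImplicit false

namespace Pool.Agent.PRT.H41

open Set MeasureTheory
open scoped ContDiff

/-- the determinant in coordinates -/
theorem det_co (A : E →L[ℝ] E) :
    A.det = (A (1, 0)).1 * (A (0, 1)).2 - (A (0, 1)).1 * (A (1, 0)).2 := by
  have h1 : A.det = LinearMap.det (A : E →ₗ[ℝ] E) := rfl
  rw [h1, ← LinearMap.det_toMatrix (Module.Basis.finTwoProd ℝ), Matrix.det_fin_two]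
  simp [LinearMap.toMatrix_apply]

theorem co (A : E →L[ℝ] E) (v : E) :
    A v = (v.1 * (A (1, 0)).1 + v.2 * (A (0, 1)).1, v.1 * (A (1, 0)).2 + v.2 * (A (0, 1)).2) := by
  have h1 : v = v.1 • ((1 : ℝ), (0 : ℝ)) + v.2 • ((0 : ℝ), (1 : ℝ)) := by
    ext <;> simp
  conv_lhs => rw [h1]
  rw [map_add, map_smul, map_smul]
  ext <;> simp

theorem nwt : NwtStmt := by
  intro φ z0 B hφ hB hdet hle
  obtain ⟨A, hA⟩ : ∃ A : E →L[ℝ] E, A = fderiv ℝ φ z0 := ⟨_, rfl⟩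
  obtain ⟨d, hd⟩ : ∃ d : ℝ, d = A.det := ⟨_, rfl⟩
  rw [← hA, ← hd] at hdet hle
  obtain ⟨a, ha⟩ : ∃ a : ℝ, a = (A (1, 0)).1 := ⟨_, rfl⟩
  obtain ⟨c, hc⟩ : ∃ c : ℝ, c = (A (1, 0)).2 := ⟨_, rfl⟩
  obtain ⟨b, hb⟩ : ∃ b : ℝ, b = (A (0, 1)).1 := ⟨_, rfl⟩
  obtain ⟨e, he⟩ : ∃ e : ℝ, e = (A (0, 1)).2 := ⟨_, rfl⟩
  have hdc : d = a * e - b * c := by rw [hd, det_co, ha, hb, hc, he]
  have hAc : ∀ v : E, A v = (v.1 * a + v.2 * b, v.1 * c + v.2 * e) := by
    intro v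
    rw [co A v, ha, hb, hc, he]
  have n1 : ‖((1 : ℝ), (0 : ℝ))‖ = 1 := by simp [Prod.norm_def]
  have n2 : ‖((0 : ℝ), (1 : ℝ))‖ = 1 := by simp [Prod.norm_def]
  have na : |a| ≤ ‖A‖ := by
    rw [ha]
    have h1 := A.le_opNorm (1, 0)
    rw [n1, mul_one] at h1
    exact (norm_fst_le _).trans h1
  have nc : |c| ≤ ‖A‖ := by
    rw [hc]
    have h1 := A.le_opNorm (1, 0)
    rw [n1, mul_one] at h1
    exact (norm_snd_le _).trans h1
  have nb : |b| ≤ ‖A‖ := by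
    rw [hb]
    have h1 := A.le_opNorm (0, 1)
    rw [n2, mul_one] at h1
    exact (norm_fst_le _).trans h1
  have ne : |e| ≤ ‖A‖ := by
    rw [he]
    have h1 := A.le_opNorm (0, 1)
    rw [n2, mul_one] at h1
    exact (norm_snd_le _).trans h1
  -- the adjugate map
  obtain ⟨J, hJ⟩ : ∃ J : E → E, J = fun v => (e * v.1 - b * v.2, a * v.2 - c * v.1) := ⟨_, rfl⟩
  have hJs : ∀ v w, J (v - w) = J v - J w := by
    intro v w
    rw [hJ]
    ext <;> simp <;> ring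
  have hJn : ∀ v, ‖J v‖ ≤ 2 * ‖A‖ * ‖v‖ := by
    intro v
    have h1 : |v.1| ≤ ‖v‖ := norm_fst_le v
    have h2 : |v.2| ≤ ‖v‖ := norm_snd_le v
    have key : ∀ p q x y : ℝ, |p| ≤ ‖A‖ → |q| ≤ ‖A‖ → |x| ≤ ‖v‖ → |y| ≤ ‖v‖ →
        |p * x - q * y| ≤ 2 * ‖A‖ * ‖v‖ := by
      intro p q x y hp hq hx hy
      have h3 : |p * x| ≤ ‖A‖ * ‖v‖ := by
        rw [abs_mul]
        exact mul_le_mul hp hx (abs_nonneg _) (norm_nonneg _)
      have h4 : |q * y| ≤ ‖A‖ * ‖v‖ := by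
        rw [abs_mul]
        exact mul_le_mul hq hy (abs_nonneg _) (norm_nonneg _)
      have h5 := abs_sub (p * x) (q * y)
      linarith
    rw [hJ, Prod.norm_def]
    exact max_le (key e b v.1 v.2 ne nb h1 h2) (key a c v.2 v.1 na nc h2 h1)
  have hJA : ∀ v, J (A v) = d • v := by
    intro v
    rw [hAc v, hJ, hdc]
    ext <;> simp <;> ring
  have hAJ : ∀ v, A (J v) = d • v := by
    intro v
    rw [hAc (J v), hJ, hdc]
    ext <;> simp <;> ring
  have hA0 : 0 ≤ ‖A‖ := norm_nonneg _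
  have hB0 : 0 ≤ B := (norm_nonneg _).trans (hB z0)
  have hdp : 0 < |d| := abs_pos.2 hdet
  obtain ⟨x, hx⟩ : ∃ x : ℝ, x = ‖φ z0‖ := ⟨_, rfl⟩
  have hx0 : 0 ≤ x := by rw [hx]; exact norm_nonneg _
  rw [← hx] at hle
  obtain ⟨r, hr⟩ : ∃ r : ℝ, r = 4 * ‖A‖ * x / |d| := ⟨_, rfl⟩
  have hr0 : 0 ≤ r := by rw [hr]; positivity
  -- the derivative
  have hdiff : Differentiable ℝ φ := hφ.differentiable (by simp)
  have hφ2 : ContDiff ℝ 1 (fderiv ℝ φ) := by
    apply ContDiff.fderiv_right (m := 1) (n := ∞) hφ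
    exact WithTop.coe_le_coe.2 le_top
  have hdd : Differentiable ℝ (fderiv ℝ φ) := hφ2.differentiable (by simp)
  have hbd : ∀ z, ‖fderiv ℝ (fderiv ℝ φ) z‖ ≤ B := by
    intro z
    have h1 := hB z
    rw [← norm_iteratedFDeriv_fderiv, norm_iteratedFDeriv_one] at h1
    exact h1
  have hlip : ∀ z, ‖fderiv ℝ φ z - A‖ ≤ B * ‖z - z0‖ := by
    intro z
    rw [hA]
    exact convex_univ.norm_image_sub_le_of_norm_fderiv_le (fun y _ => hdd y) (fun y _ => hbd y)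
      (Set.mem_univ z0) (Set.mem_univ z)
  have hball : ∀ z ∈ Metric.closedBall z0 r, ∀ w ∈ Metric.closedBall z0 r,
      ‖φ z - φ w - A (z - w)‖ ≤ (B * r) * ‖z - w‖ := by
    intro z hz w hw
    apply (convex_closedBall z0 r).norm_image_sub_le_of_norm_hasFDerivWithin_le'
      (f' := fun y => fderiv ℝ φ y) _ _ hw hz
    · intro y _
      exact (hdiff y).hasFDerivAt.hasFDerivWithinAt
    · intro y hy
      refine (hlip y).trans (mul_le_mul_of_nonneg_left ?_ hB0)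
      rw [mem_closedBall_iff_norm] at hy
      exact hy
  obtain ⟨T, hT⟩ : ∃ T : E → E, T = fun z => z - d⁻¹ • J (φ z) := ⟨_, rfl⟩
  have hTs : ∀ z w, T z - T w = d⁻¹ • J (A (z - w) - (φ z - φ w)) := by
    intro z w
    have e1 : ∀ y, T y = y - d⁻¹ • J (φ y) := fun y => by rw [hT]
    rw [hJs, hJA, hJs, e1, e1, smul_sub, smul_smul, inv_mul_cancel₀ hdet, one_smul, smul_sub]
    abel
  have hcon : ∀ z ∈ Metric.closedBall z0 r, ∀ w ∈ Metric.closedBall z0 r,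
      ‖T z - T w‖ ≤ 1 / 2 * ‖z - w‖ := by
    intro z hz w hw
    rw [hTs, norm_smul, norm_inv, Real.norm_eq_abs]
    have h1 : ‖A (z - w) - (φ z - φ w)‖ ≤ (B * r) * ‖z - w‖ := by
      rw [norm_sub_rev]
      exact hball z hz w hw
    have h2 : ‖J (A (z - w) - (φ z - φ w))‖ ≤ 2 * ‖A‖ * ((B * r) * ‖z - w‖) :=
      (hJn _).trans (mul_le_mul_of_nonneg_left h1 (by positivity))
    have h3 : |d|⁻¹ * (2 * ‖A‖ * (B * r)) ≤ 1 / 2 := by
      rw [hr]
      have h4 : |d|⁻¹ * (2 * ‖A‖ * (B * (4 * ‖A‖ * x / |d|))) =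
          (8 * ‖A‖ ^ 2 * x * B) / |d| ^ 2 := by
        field_simp
        ring
      rw [h4, div_le_iff₀ (by positivity), sq_abs]
      linarith
    calc |d|⁻¹ * ‖J (A (z - w) - (φ z - φ w))‖
        ≤ |d|⁻¹ * (2 * ‖A‖ * ((B * r) * ‖z - w‖)) :=
          mul_le_mul_of_nonneg_left h2 (by positivity)
      _ = (|d|⁻¹ * (2 * ‖A‖ * (B * r))) * ‖z - w‖ := by ring
      _ ≤ 1 / 2 * ‖z - w‖ := mul_le_mul_of_nonneg_right h3 (norm_nonneg _)
  have hz0 : z0 ∈ Metric.closedBall z0 r := Metric.mem_closedBall_self hr0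
  have hT0 : ‖T z0 - z0‖ ≤ r / 2 := by
    have h1 : T z0 - z0 = -(d⁻¹ • J (φ z0)) := by
      rw [hT]
      simp
    rw [h1, norm_neg, norm_smul, norm_inv, Real.norm_eq_abs]
    have h2 := hJn (φ z0)
    rw [← hx] at h2
    calc |d|⁻¹ * ‖J (φ z0)‖ ≤ |d|⁻¹ * (2 * ‖A‖ * x) :=
          mul_le_mul_of_nonneg_left h2 (by positivity)
      _ = r / 2 := by
          rw [hr]
          field_simp
          ring
  have hmap : Set.MapsTo T (Metric.closedBall z0 r) (Metric.closedBall z0 r) := by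
    intro z hz
    have h1 := hcon z hz z0 hz0
    rw [mem_closedBall_iff_norm] at hz ⊢
    have h2 : T z - z0 = (T z - T z0) + (T z0 - z0) := by abel
    rw [h2]
    refine (norm_add_le _ _).trans ?_
    linarith
  have hK : ContractingWith (1 / 2 : NNReal)
      (hmap.restrict T (Metric.closedBall z0 r) (Metric.closedBall z0 r)) := by
    refine ⟨by
      rw [← NNReal.coe_lt_coe]
      push_cast
      norm_num, ?_⟩
    apply LipschitzWith.of_dist_le_mul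
    intro z w
    have h1 := hcon z.1 z.2 w.1 w.2
    rw [Subtype.dist_eq, Subtype.dist_eq, dist_eq_norm, dist_eq_norm]
    push_cast
    exact h1
  obtain ⟨y, -, hy, -⟩ := ContractingWith.exists_fixedPoint' (Metric.isClosed_closedBall.isComplete)
    hmap hK hz0 (edist_ne_top _ _)
  refine ⟨y, ?_⟩
  have h1 : T y = y := hy
  rw [hT] at h1
  have h2 : d⁻¹ • J (φ y) = 0 := by
    have h3 : y - d⁻¹ • J (φ y) = y := h1
    have h4 := sub_eq_self.1 h3
    exact h4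
  have h3 : J (φ y) = 0 := by
    rcases smul_eq_zero.1 h2 with h4 | h4
    · exact absurd h4 (inv_ne_zero hdet)
    · exact h4
  have h4 := hAJ (φ y)
  rw [h3, map_zero] at h4
  rcases smul_eq_zero.1 h4.symm with h5 | h5
  · exact absurd h5 hdet
  · exact h5

end Pool.Agent.PRT.H41
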